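import Pool.Agent.Helper26.MCE.GoalsC

/-!
# Project MCE: reduction to sets without periods (`G_QUO`)
-/

set_option autoImplicit false

namespace Pool.Agent.Helper96.MCE

open Finset Pool.Agent.Helper87.MC Pool.Agent.Helper26.MCE

/-- The group of the periods of `D`. -/
def perG {G : Type} [AddCommGroup G] (D : Finset G) : AddSubgroup G where
  carrier := {h | ∀ x, x + h ∈ D ↔ x ∈ D}
  zero_mem' := fun x => by rw [add_zero]
  add_mem' := by
    intro a b ha hb x
    rw [← add_assoc, hb, ha]
  neg_mem' := by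
    intro a ha x
    rw [← ha (x + -a), neg_add_cancel_right]

theorem mem_perG {G : Type} [AddCommGroup G] (D : Finset G) (h : G) :
    h ∈ perG D ↔ ∀ x, x + h ∈ D ↔ x ∈ D := Iff.rfl

theorem goalQUO (h1 : G_CORE) (h2 : G_LIFT) : G_QUO := by
  classical
  intro G _ _ D Q r hr hQ hG1 hG2 hD hDc
  set P : AddSubgroup G := perG D with hP
  let _ : Fintype (G ⧸ P) := Fintype.ofFinite _
  set D' : Finset (G ⧸ P) := D.image (fun x : G => (x : G ⧸ P)) with hD'
  have hmem : ∀ x : G, (x : G ⧸ P) ∈ D' ↔ x ∈ D := by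
    intro x
    constructor
    · intro h
      obtain ⟨y, hy, hyx⟩ := Finset.mem_image.1 h
      have h3 : -y + x ∈ P := QuotientAddGroup.eq.1 hyx
      have h4 := (mem_perG D _).1 h3 y
      rw [add_neg_cancel_left] at h4
      exact h4.2 hy
    · intro h
      exact Finset.mem_image.2 ⟨x, h, rfl⟩
  have hcG : Fintype.card G = Fintype.card (G ⧸ P) * Nat.card P := by
    rw [← Nat.card_eq_fintype_card, ← Nat.card_eq_fintype_card]
    exact AddSubgroup.card_eq_card_quotient_mul_card_addSubgroup P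
  have hcD : D.card = Nat.card P * D'.card := by
    have h3 := Nat.card_congr (QuotientAddGroup.preimageMkEquivAddSubgroupProdSet P
      (D' : Set (G ⧸ P)))
    rw [Nat.card_prod] at h3
    have h4 : (QuotientAddGroup.mk : G → G ⧸ P) ⁻¹' (D' : Set (G ⧸ P)) = (D : Set G) := by
      ext x
      exact hmem x
    rw [h4] at h3
    simpa using h3
  have hP1 : 1 ≤ Nat.card P := Nat.card_pos
  have hle : Fintype.card (G ⧸ P) ≤ Fintype.card G := by
    rw [hcG]
    exact Nat.le_mul_of_pos_right _ hP1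
  have hnum : D'.card ^ 2 * Q ^ (100 * r ^ 2) ≤ Fintype.card (G ⧸ P) := by
    rw [hcD, hcG] at hDc
    have h3 : D'.card ^ 2 * Q ^ (100 * r ^ 2) * Nat.card P ≤ Fintype.card (G ⧸ P) := by
      refine Nat.le_of_mul_le_mul_right ?_ hP1
      calc D'.card ^ 2 * Q ^ (100 * r ^ 2) * Nat.card P * Nat.card P
          = (Nat.card P * D'.card) ^ 2 * Q ^ (100 * r ^ 2) := by ring
        _ ≤ _ := hDc
    exact (Nat.le_mul_of_pos_right _ hP1).trans h3
  have hno : NoPer D' := by
    intro P' hP'
    rw [eq_bot_iff]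
    intro h' hh'
    obtain ⟨h, rfl⟩ := QuotientAddGroup.mk_surjective h'
    have h3 : h ∈ P := by
      rw [hP, mem_perG]
      intro x
      constructor
      · intro hx
        have h4 := hP' _ ((hmem (x + h)).2 hx) _ (neg_mem hh')
        have h5 : ((x + h : G) : G ⧸ P) + -(h : G ⧸ P) = (x : G ⧸ P) := by
          rw [QuotientAddGroup.mk_add, add_neg_cancel_right]
        rw [h5] at h4
        exact (hmem x).1 h4
      · intro hx
        have h4 := hP' _ ((hmem x).2 hx) _ hh'
        rw [← QuotientAddGroup.mk_add] at h4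
        exact (hmem (x + h)).1 h4
    rw [AddSubgroup.mem_bot]
    exact (QuotientAddGroup.eq_zero_iff h).2 h3
  have hMC := h1 (G ⧸ P) D' Q r hr hQ (hle.trans hG1) (hle.trans hG2) (hD.image _) hno hnum
  have h3 := h2 G P _ hMC
  have h4 : (fun x : G => (x : G ⧸ P)) ⁻¹' {x' : G ⧸ P | -x' ∈ D'} = {x : G | -x ∈ D} := by
    ext x
    show -(x : G ⧸ P) ∈ D' ↔ -x ∈ D
    rw [← QuotientAddGroup.mk_neg]
    exact hmem (-x)
  rw [h4] at h3
  exact h3

end Pool.Agent.Helper96.MCE
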